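import Pool.Agent.LibMather41.KMeas

/-!
Mather's beta function of a `C^2` time-periodic Tonelli Lagrangian on a flat torus can have a
vertex at an irrational homology class.

The notions used in the statement (`Phase`, `proj`, `IsExtremal`, `IsELFlow`, `IsTonelli`,
`IsInvMeasure`, `homology`, `actions`, `beta`, `IsRationalClass`, `HasDirDeriv`, `HasVertex`) are
defined in `Pool/Agent/LibMather41/Defs.lean`.
-/

open MeasureTheory Pool.Agent.LibMather41

namespace Pool.Agent.Results.MP_9da340_an.IrrationalVertex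

theorem not_rational_ho : ¬ IsRationalClass ho := by
  rintro ⟨n, hn, h⟩
  obtain ⟨m, hm⟩ := h (.inl 0)
  have e : ho (.inl 0) = hh := by simp [ho]
  rw [e] at hm
  have hn' : (n : ℝ) ≠ 0 := by exact_mod_cast hn
  have h2 : hh = ((m / n : ℚ) : ℝ) := by
    push_cast
    field_simp
    linarith
  exact hh_irrational ⟨_, h2.symm⟩

/-- There is a `C^2` Tonelli Lagrangian `L` on `TM × 𝕋`, `M = 𝕋^23`, and an irrational class `h`
such that Mather's beta function of `L` (finite and convex on all of `H_1(M, ℝ)`) has a vertex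
at `h`. -/
theorem result : ∃ (L : Phase (Fin 3 ⊕ ((Fin 5 × Bool) ⊕ (Fin 5 × Bool))) → ℝ)
    (h : Fin 3 ⊕ ((Fin 5 × Bool) ⊕ (Fin 5 × Bool)) → ℝ),
    IsTonelli L ∧
    (∀ h', (actions L h').Nonempty ∧ BddBelow (actions L h')) ∧
    ConvexOn ℝ Set.univ (beta L) ∧
    (∃ μ, IsInvMeasure L μ ∧ homology μ = h ∧ ∫ z, L z ∂μ = beta L h) ∧
    ¬ IsRationalClass h ∧
    HasVertex (beta L) h := by
  obtain ⟨c, hc, hlow⟩ := exists_low
  have hne : (Sum.inl 1 : Io) ≠ Sum.inl 2 := by simp
  obtain ⟨h1, h2, h3, h4⟩ := Do.main_abstract Vo_nonneg ho c hc (.inl 1) (.inl 2) hne free1 free2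
    exists_K hlow
  exact ⟨Do.L, ho, Do.isTonelli, h1, h2, h3, not_rational_ho, h4⟩

end Pool.Agent.Results.MP_9da340_an.IrrationalVertex
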